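import Pool.Agent.Q161.ESM.Stm1
import Pool.Agent.Erdos456.Mertens

/-! # Project ESM of helper161: job RB, the product of the densities over a range of primes -/

set_option autoImplicit false

namespace Pool.Agent.Q14.ESM

open Finset
open Pool.Agent.Q51.EL (pr)
open Pool.Agent.Q161.ESM

theorem mem_pr {Y : ℝ} {l : ℕ} : l ∈ pr Y ↔ (1 ≤ l ∧ l ≤ ⌊Y⌋₊) ∧ l.Prime := by
  unfold pr
  rw [mem_filter, mem_Icc]

/-- primes with `l^4 ≤ Y` -/
theorem mem_pr4 {Y : ℝ} {l : ℕ} (h : (l : ℝ) ^ 4 ≤ Y) (hl : l.Prime) : l ∈ pr Y := by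
  rw [mem_pr]
  refine ⟨⟨hl.one_lt.le, Nat.le_floor ?_⟩, hl⟩
  have h1 : (1 : ℝ) ≤ l := by exact_mod_cast hl.one_lt.le
  have h2 : (l : ℝ) ≤ (l : ℝ) ^ 4 := le_self_pow₀ h1 (by norm_num)
  linarith

theorem mem_PP {B : ℕ} {Y : ℝ} {l : ℕ} : l ∈ PP B Y ↔ l.Prime ∧ ¬ l ∣ B ∧ (l : ℝ) ^ 4 ≤ Y := by
  unfold PP
  rw [mem_filter]
  constructor
  · rintro ⟨h1, h2, h3⟩
    exact ⟨(mem_pr.1 h1).2, h2, h3⟩
  · rintro ⟨h1, h2, h3⟩
    exact ⟨mem_pr4 h3 h1, h2, h3⟩

theorem vv_pos {Y : ℝ} (h : 1 ≤ Y) : 1 ≤ vv Y := by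
  unfold vv
  have := Real.log_nonneg h
  linarith

theorem PP_mono (B : ℕ) {Y1 Y2 : ℝ} (h : Y1 ≤ Y2) : PP B Y1 ⊆ PP B Y2 := by
  intro l hl
  rw [mem_PP] at hl ⊢
  exact ⟨hl.1, hl.2.1, hl.2.2.trans h⟩

/-- the sums over the primes with `l^4 ≤ Y`, `l` not dividing `B` -/
theorem grow {f : ℕ → ℝ} {c A : ℝ} (hc : 0 ≤ c) (hf0 : ∀ l : ℕ, l.Prime → 0 ≤ f l)
    (hfA : ∀ l : ℕ, l.Prime → f l ≤ A) (h : ∀ Y : ℝ, 3 ≤ Y → |∑ l ∈ pr Y, f l / l - c * Real.log (Real.log Y)| ≤ A)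
    {B : ℕ} (hB : B ≠ 0) {Y : ℝ} (hY : 1 ≤ Y) :
    |∑ l ∈ PP B Y, f l / l - c * Real.log (vv Y)| ≤ A + 5 * c + A * B := by
  have hA0 : 0 ≤ A := (hf0 2 Nat.prime_two).trans (hfA 2 Nat.prime_two)
  have hterm0 : ∀ l : ℕ, l.Prime → 0 ≤ f l / l := fun l hl => div_nonneg (hf0 l hl) (Nat.cast_nonneg _)
  have htermA : ∀ l : ℕ, l.Prime → f l / l ≤ A := by
    intro l hl
    have h1 : (1 : ℝ) ≤ l := by exact_mod_cast hl.one_lt.le
    rw [div_le_iff₀ (by linarith)]
    have := hfA l hl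
    nlinarith
  set P4 := (pr Y).filter (fun l : ℕ => (l : ℝ) ^ 4 ≤ Y) with hP4
  have hsplit : ∑ l ∈ PP B Y, f l / l = ∑ l ∈ P4, f l / l - ∑ l ∈ P4.filter (fun l => l ∣ B), f l / l := by
    have h1 : PP B Y = P4.filter (fun l => ¬ l ∣ B) := by
      ext l
      rw [mem_PP, mem_filter, hP4, mem_filter]
      constructor
      · rintro ⟨h1, h2, h3⟩
        exact ⟨⟨mem_pr4 h3 h1, h3⟩, h2⟩
      · rintro ⟨⟨h1, h3⟩, h2⟩
        exact ⟨(mem_pr.1 h1).2, h2, h3⟩
    rw [h1, eq_sub_iff_add_eq, add_comm]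
    exact sum_filter_add_sum_filter_not _ _ _
  have hBsum0 : 0 ≤ ∑ l ∈ P4.filter (fun l => l ∣ B), f l / l := by
    apply sum_nonneg
    intro l hl
    rw [mem_filter, hP4, mem_filter] at hl
    exact hterm0 l (mem_pr.1 hl.1.1).2
  have hBsum1 : ∑ l ∈ P4.filter (fun l => l ∣ B), f l / l ≤ A * B := by
    have h1 : ∀ l ∈ P4.filter (fun l => l ∣ B), f l / l ≤ A := by
      intro l hl
      rw [mem_filter, hP4, mem_filter] at hl
      exact htermA l (mem_pr.1 hl.1.1).2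
    refine (sum_le_sum h1).trans ?_
    rw [sum_const, nsmul_eq_mul, mul_comm]
    apply mul_le_mul_of_nonneg_left _ hA0
    have h2 : (P4.filter (fun l => l ∣ B)).card ≤ B := by
      have h3 : P4.filter (fun l => l ∣ B) ⊆ Nat.divisors B := by
        intro l hl
        rw [mem_filter] at hl
        exact Nat.mem_divisors.2 ⟨hl.2, hB⟩
      exact (card_le_card h3).trans (Nat.card_divisors_le_self B)
    exact_mod_cast h2
  have hmain : |∑ l ∈ P4, f l / l - c * Real.log (vv Y)| ≤ A + 5 * c := by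
    have hlog0 : 0 ≤ Real.log Y := Real.log_nonneg hY
    rcases le_or_gt 81 Y with h81 | h81
    · set W : ℝ := Y ^ ((1 : ℝ) / 4) with hW
      have hW4 : W ^ 4 = Y := by
        rw [hW, ← Real.rpow_natCast, ← Real.rpow_mul (by linarith)]
        norm_num
      have hW0 : 0 ≤ W := Real.rpow_nonneg (by linarith) _
      have hW3 : 3 ≤ W := by
        by_contra hcon
        push Not at hcon
        have h1 : W ^ 4 < 3 ^ 4 := pow_lt_pow_left₀ hcon hW0 (by norm_num)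
        rw [hW4] at h1
        norm_num at h1
        linarith
      have hP : P4 = pr W := by
        ext l
        rw [hP4, mem_filter, mem_pr, mem_pr]
        constructor
        · rintro ⟨⟨⟨h1, _⟩, h2⟩, h3⟩
          refine ⟨⟨h1, Nat.le_floor ?_⟩, h2⟩
          rw [← hW4] at h3
          exact le_of_pow_le_pow_left₀ (by norm_num) hW0 h3
        · rintro ⟨⟨h1, h2⟩, h3⟩
          have h4 : (l : ℝ) ≤ W := (Nat.le_floor_iff hW0).1 h2
          have h5 : (l : ℝ) ^ 4 ≤ Y := by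
            rw [← hW4]
            exact pow_le_pow_left₀ (Nat.cast_nonneg _) h4 4
          exact ⟨mem_pr.1 (mem_pr4 h5 h3), h5⟩
      have h1 := h W hW3
      have hlW : Real.log W = Real.log Y / 4 := by
        rw [hW, Real.log_rpow (by linarith)]
        ring
      have hlY4 : 4 ≤ Real.log Y := by
        have h2 : Real.log 81 ≤ Real.log Y := Real.log_le_log (by norm_num) h81
        have h3 : Real.log 81 = 4 * Real.log 3 := by
          rw [show (81 : ℝ) = 3 ^ 4 by norm_num, Real.log_pow]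
          norm_num
        have h4 : 1 < Real.log 3 := by
          rw [Real.lt_log_iff_exp_lt (by norm_num)]
          exact Real.exp_one_lt_d9.trans (by norm_num)
        linarith
      have hll : Real.log (Real.log W) = Real.log (Real.log Y) - 2 * Real.log 2 := by
        rw [hlW, Real.log_div (by linarith) (by norm_num), show (4 : ℝ) = 2 ^ 2 by norm_num, Real.log_pow]
        norm_num
      have hv1 : Real.log (Real.log Y) ≤ Real.log (vv Y) := by
        apply Real.log_le_log (by linarith)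
        unfold vv
        linarith
      have hv2 : Real.log (vv Y) ≤ Real.log 2 + Real.log (Real.log Y) := by
        rw [← Real.log_mul (by norm_num) (by linarith)]
        apply Real.log_le_log (by unfold vv; linarith)
        unfold vv
        linarith
      have hl2 : Real.log 2 < 1 := by
        have := Real.log_two_lt_d9
        linarith
      have hl20 : 0 < Real.log 2 := Real.log_pos (by norm_num)
      rw [hP]
      rw [hll] at h1
      rw [abs_le] at h1 ⊢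
      have h5 : c * Real.log (Real.log Y) ≤ c * Real.log (vv Y) := mul_le_mul_of_nonneg_left hv1 hc
      have h6 : c * Real.log (vv Y) ≤ c * (Real.log 2 + Real.log (Real.log Y)) := mul_le_mul_of_nonneg_left hv2 hc
      have h7 : c * Real.log 2 ≤ c * 1 := mul_le_mul_of_nonneg_left hl2.le hc
      have h8 : 0 ≤ c * Real.log 2 := by positivity
      constructor <;> nlinarith [h1.1, h1.2]
    · have hsub : P4 ⊆ {2} := by
        intro l hl
        rw [hP4, mem_filter] at hl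
        rw [mem_singleton]
        have h1 := (mem_pr.1 hl.1).2
        have h2 : (l : ℝ) ^ 4 < 3 ^ 4 := by
          norm_num
          linarith [hl.2]
        have h3 : (l : ℝ) < 3 := lt_of_pow_lt_pow_left₀ 4 (by norm_num) h2
        have h4 : l < 3 := by exact_mod_cast h3
        have := h1.two_le
        omega
      have h1 : 0 ≤ ∑ l ∈ P4, f l / l := by
        apply sum_nonneg
        intro l hl
        have := hsub hl
        rw [mem_singleton] at this
        rw [this]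
        exact hterm0 2 Nat.prime_two
      have h2 : ∑ l ∈ P4, f l / l ≤ A := by
        calc ∑ l ∈ P4, f l / l ≤ ∑ l ∈ ({2} : Finset ℕ), f l / l := by
              apply sum_le_sum_of_subset_of_nonneg hsub
              intro l hl _
              rw [mem_singleton] at hl
              rw [hl]
              exact hterm0 2 Nat.prime_two
          _ = f 2 / (2 : ℕ) := by rw [sum_singleton]
          _ ≤ A := htermA 2 Nat.prime_two
      have h3 : 0 ≤ Real.log (vv Y) := Real.log_nonneg (vv_pos hY)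
      have h4 : Real.log (vv Y) ≤ 5 := by
        have h5 : Real.log (vv Y) ≤ vv Y - 1 := Real.log_le_sub_one_of_pos (by linarith [vv_pos hY])
        have h6 : vv Y - 1 = Real.log Y := by unfold vv; ring
        have h7 : Real.log Y ≤ Real.log 81 := Real.log_le_log (by linarith) h81.le
        have h8 : Real.log 81 ≤ 5 := by
          rw [Real.log_le_iff_le_exp (by norm_num)]
          have h9 : (2.7182818283 : ℝ) ^ 5 ≤ Real.exp 5 := by
            have h10 : Real.exp 5 = Real.exp 1 ^ 5 := by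
              rw [← Real.exp_nat_mul]
              norm_num
            rw [h10]
            exact pow_le_pow_left₀ (by norm_num) Real.exp_one_gt_d9.le 5
          refine le_trans ?_ h9
          norm_num
        linarith
      have h5 : c * Real.log (vv Y) ≤ c * 5 := mul_le_mul_of_nonneg_left h4 hc
      have h6 : 0 ≤ c * Real.log (vv Y) := mul_nonneg hc h3
      rw [abs_le]
      constructor <;> linarith
  rw [hsplit]
  rw [abs_le] at hmain ⊢
  constructor <;> linarith [hmain.1, hmain.2]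

/-- the sums over the range -/
theorem grow2 {f : ℕ → ℝ} {c A : ℝ} (hc : 0 ≤ c) (hf0 : ∀ l : ℕ, l.Prime → 0 ≤ f l)
    (hfA : ∀ l : ℕ, l.Prime → f l ≤ A) (h : ∀ Y : ℝ, 3 ≤ Y → |∑ l ∈ pr Y, f l / l - c * Real.log (Real.log Y)| ≤ A)
    {B : ℕ} (hB : B ≠ 0) {Y1 Y2 : ℝ} (hY : 1 ≤ Y1) (hYY : Y1 ≤ Y2) :
    |∑ l ∈ PP B Y2 \ PP B Y1, f l / l - c * (Real.log (vv Y2) - Real.log (vv Y1))| ≤ 2 * (A + 5 * c + A * B) := by
  have h1 := grow hc hf0 hfA h hB hY
  have h2 := grow hc hf0 hfA h hB (hY.trans hYY)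
  have h3 : ∑ l ∈ PP B Y2 \ PP B Y1, f l / l = ∑ l ∈ PP B Y2, f l / l - ∑ l ∈ PP B Y1, f l / l := by
    rw [eq_sub_iff_add_eq]
    exact sum_sdiff (PP_mono B hYY)
  rw [h3]
  rw [abs_le] at h1 h2 ⊢
  constructor <;> linarith [h1.1, h1.2, h2.1, h2.2]

section

variable {ι : Type} [Fintype ι] [DecidableEq ι] {n : ι → ℕ}

omit [Fintype ι] [DecidableEq ι] in
theorem frac_nonneg (Om : (l : ℕ) → Set (Vm n l)) (S : Finset ι) (l : ℕ) (z : Vc n) : 0 ≤ frac n Om S l z := by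
  unfold frac
  positivity

theorem frac_le_one (Om : (l : ℕ) → Set (Vm n l)) (S : Finset ι) {l : ℕ} (hl : l.Prime) (z : Vc n) :
    frac n Om S l z ≤ 1 := by
  classical
  have : NeZero l := ⟨hl.ne_zero⟩
  have hl0 : (0 : ℝ) < l := by exact_mod_cast hl.pos
  unfold frac
  rw [div_le_one (by positivity)]
  have h1 : {y : Vm n l | y ∈ Om l ∧ ∀ i, i ∉ S → y i = rd n l z i}.ncard ≤
      Nat.card ((i : S) → Fin (n i) → ZMod l) := by
    rw [← Set.ncard_univ]
    apply Set.ncard_le_ncard_of_injOn (fun y => fun i : S => y i) (fun _ _ => Set.mem_univ _)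
    · intro y hy y' hy' h
      rw [Set.mem_ofPred_eq] at hy hy'
      funext i
      by_cases hi : i ∈ S
      · exact congrFun h ⟨i, hi⟩
      · rw [hy.2 i hi, hy'.2 i hi]
  have h2 : Nat.card ((i : S) → Fin (n i) → ZMod l) = l ^ ∑ i ∈ S, n i := by
    rw [Nat.card_pi]
    have h3 : ∀ i : S, Nat.card (Fin (n i) → ZMod l) = l ^ n i := by
      intro i
      rw [Nat.card_eq_fintype_card, Fintype.card_pi, prod_const, ZMod.card, card_univ, Fintype.card_fin]
    rw [prod_congr rfl (fun i _ => h3 i), prod_pow_eq_pow_sum]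
    congr 1
    exact sum_coe_sort S n
  rw [h2] at h1
  exact_mod_cast h1

/-- the number of the primes of the range which divide the norms -/
theorem few_bad {s : Sy n} {A c κ : ℝ} (hs : Ok s A c κ) (S : Finset ι) (z : Vc n) {Y1 : ℝ} (hY : 1 ≤ Y1)
    (hz : ∀ i, i ∉ S → (∀ j, |(z i j : ℝ)| ≤ Y1) ∧ s.Nm i (z i) ≠ 0) (D : Finset ℕ)
    (hD : ∀ l ∈ D, l.Prime ∧ Y1 < (l : ℝ) ^ 4 ∧ l ∣ ∏ i ∈ univ \ S, s.Nm i (z i)) :
    (D.card : ℝ) ≤ 4 * (Fintype.card ι * Real.log A + ∑ i, (n i : ℝ)) := by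
  have hA1 := hs.A1
  set Q := ∏ i ∈ univ \ S, s.Nm i (z i) with hQ
  have hQ0 : Q ≠ 0 := by
    rw [hQ, prod_ne_zero_iff]
    intro i hi
    rw [mem_sdiff] at hi
    exact (hz i hi.2).2
  have hlogQ : Real.log Q ≤ Fintype.card ι * Real.log A + (∑ i, (n i : ℝ)) * Real.log Y1 := by
    rw [hQ]
    push_cast
    rw [Real.log_prod (fun i hi => by
      rw [mem_sdiff] at hi
      exact_mod_cast (hz i hi.2).2)]
    have h1 : ∀ i ∈ univ \ S, Real.log (s.Nm i (z i) : ℝ) ≤ Real.log A + n i * Real.log Y1 := by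
      intro i hi
      rw [mem_sdiff] at hi
      have h2 := hs.nb i (z i) Y1 hY (hz i hi.2).1
      have h3 : (0 : ℝ) < s.Nm i (z i) := by exact_mod_cast Nat.pos_of_ne_zero (hz i hi.2).2
      have h4 := Real.log_le_log h3 h2
      rw [Real.log_mul (by linarith) (by positivity), Real.log_pow] at h4
      exact h4
    refine (sum_le_sum h1).trans ?_
    have h5 : ∑ i ∈ univ \ S, (Real.log A + n i * Real.log Y1) ≤ ∑ i, (Real.log A + n i * Real.log Y1) := by
      apply sum_le_sum_of_subset_of_nonneg sdiff_subset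
      intro i _ _
      have := Real.log_nonneg hA1
      have := Real.log_nonneg hY
      positivity
    refine h5.trans (le_of_eq ?_)
    rw [sum_add_distrib, sum_const, card_univ, nsmul_eq_mul, sum_mul]
  have hprod : ∏ l ∈ D, l ∣ Q := by
    apply Finset.prod_primes_dvd
    · intro l hl
      exact (hD l hl).1.prime
    · intro l hl
      exact (hD l hl).2.2
  have hsum : ∑ l ∈ D, Real.log (l : ℝ) ≤ Real.log Q := by
    rw [← Real.log_prod (fun l hl => by exact_mod_cast (hD l hl).1.ne_zero)]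
    apply Real.log_le_log
    · apply prod_pos
      intro l hl
      exact_mod_cast (hD l hl).1.pos
    · have h9 : ((∏ l ∈ D, l : ℕ) : ℝ) ≤ (Q : ℝ) := by
        exact_mod_cast Nat.le_of_dvd (Nat.pos_of_ne_zero hQ0) hprod
      push_cast at h9
      exact h9
  have h1 : (D.card : ℝ) * (Real.log Y1 / 4) ≤ ∑ l ∈ D, Real.log (l : ℝ) := by
    rw [← nsmul_eq_mul]
    apply card_nsmul_le_sum
    intro l hl
    have h2 := Real.log_le_log (by linarith) (hD l hl).2.1.le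
    rw [Real.log_pow] at h2
    push_cast at h2
    linarith
  have h2 : (D.card : ℝ) * (1 / 2) ≤ ∑ l ∈ D, Real.log (l : ℝ) := by
    rw [← nsmul_eq_mul]
    apply card_nsmul_le_sum
    intro l hl
    have h3 : (2 : ℝ) ≤ l := by exact_mod_cast (hD l hl).1.two_le
    have h4 := Real.log_le_log (by norm_num) h3
    have := Real.log_two_gt_d9
    linarith
  have hL0 := Real.log_nonneg hY
  have hA0 : 0 ≤ Fintype.card ι * Real.log A := by
    have := Real.log_nonneg hA1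
    positivity
  have hn0 : 0 ≤ ∑ i, (n i : ℝ) := sum_nonneg fun i _ => Nat.cast_nonneg _
  rcases le_or_gt 1 (Real.log Y1) with hc | hc
  · have h3 : (D.card : ℝ) * (Real.log Y1 / 4) ≤
        (Fintype.card ι * Real.log A + ∑ i, (n i : ℝ)) * Real.log Y1 := by
      refine h1.trans (hsum.trans (hlogQ.trans ?_))
      rw [add_mul]
      have : (Fintype.card ι * Real.log A) * 1 ≤ (Fintype.card ι * Real.log A) * Real.log Y1 :=
        mul_le_mul_of_nonneg_left hc hA0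
      linarith
    have h4 : (D.card : ℝ) * Real.log Y1 ≤ 4 * (Fintype.card ι * Real.log A + ∑ i, (n i : ℝ)) * Real.log Y1 := by
      linarith
    exact le_of_mul_le_mul_right h4 (by linarith)
  · have h3 : (∑ i, (n i : ℝ)) * Real.log Y1 ≤ (∑ i, (n i : ℝ)) * 1 := mul_le_mul_of_nonneg_left hc.le hn0
    linarith

open Classical in
/-- the exponent of the density at `l` -/
noncomputable def ex (s : Sy n) (S : Finset ι) (θ : ℝ) (l : ℕ) : ℝ :=
  (∑ i ∈ S, (s.N1 i l : ℝ)) - 1 + if l ∈ s.sp then θ else 0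

open Classical in
theorem rb_aux (s : Sy n) (A c κ : ℝ) (hs : Ok s A c κ) : ∃ C : ℝ, 0 < C ∧ ∀ θ : ℝ, 0 ≤ θ → θ ≤ κ →
    ∀ (S : Finset ι) (z : Vc n) (Y1 Y2 : ℝ), S.Nonempty → 1 ≤ Y1 → Y1 ≤ Y2 →
    (∀ i, i ∉ S → (∀ j, |(z i j : ℝ)| ≤ Y1) ∧ s.Nm i (z i) ≠ 0) →
    (∀ l : ℕ, l.Prime → ¬ l ∣ s.B → (∀ i, i ∉ S → rd n l z i ∈ s.U l i) →
      frac n s.Om S l z ≤ 1 - ex s S θ l / l + A / (l : ℝ) ^ 2) →
    ∏ l ∈ PP s.B Y2 \ PP s.B Y1, frac n s.Om S l z ≤
      C * (vv Y1 / vv Y2) ^ (S.card - 1) * (vv Y1 / vv Y2) ^ (c * θ) := by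
  obtain ⟨M₀, hM₀⟩ := Pool.Agent.Erdos456.Mert.mertens_inv
  -- Mertens' theorem for real `Y`
  obtain ⟨M, hM1, hM⟩ : ∃ M : ℝ, 1 ≤ M ∧ ∀ Y : ℝ, 3 ≤ Y →
      |∑ l ∈ pr Y, (fun _ : ℕ => (1 : ℝ)) l / l - 1 * Real.log (Real.log Y)| ≤ M := by
    refine ⟨|M₀| + 1, by linarith [abs_nonneg M₀], fun Y hY => ?_⟩
    have hfl : 3 ≤ ⌊Y⌋₊ := Nat.le_floor (by exact_mod_cast hY)
    have h1 := (hM₀ ⌊Y⌋₊ hfl).trans (le_abs_self _)
    have hfl' : (3 : ℝ) ≤ (⌊Y⌋₊ : ℝ) := by exact_mod_cast hfl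
    have hY2 : Y < (⌊Y⌋₊ : ℝ) + 1 := Nat.lt_floor_add_one Y
    have hY3 : (⌊Y⌋₊ : ℝ) ≤ Y := Nat.floor_le (by linarith)
    have hlog3 : 1 < Real.log 3 := by
      rw [Real.lt_log_iff_exp_lt (by norm_num)]
      exact Real.exp_one_lt_d9.trans (by norm_num)
    have hl1 : 1 < Real.log ⌊Y⌋₊ := hlog3.trans_le (Real.log_le_log (by norm_num) hfl')
    have hl2 : Real.log Y ≤ 2 * Real.log ⌊Y⌋₊ := by
      have : Real.log Y ≤ Real.log ((⌊Y⌋₊ : ℝ) ^ 2) := Real.log_le_log (by linarith) (by nlinarith)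
      rw [Real.log_pow] at this
      exact_mod_cast this
    have hl3 : 1 < Real.log Y := hlog3.trans_le (Real.log_le_log (by norm_num) hY)
    have hl4 : Real.log (Real.log Y) ≤ Real.log 2 + Real.log (Real.log ⌊Y⌋₊) := by
      rw [← Real.log_mul (by norm_num) (by linarith)]
      exact Real.log_le_log (by linarith) hl2
    have hl5 : Real.log (Real.log ⌊Y⌋₊) ≤ Real.log (Real.log Y) :=
      Real.log_le_log (by linarith) (Real.log_le_log (by linarith) hY3)
    have hl6 : Real.log 2 < 1 := by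
      have := Real.log_two_lt_d9
      linarith
    have h2 : ∑ l ∈ pr Y, (fun _ : ℕ => (1 : ℝ)) l / l = ∑ p ∈ (Finset.Icc 1 ⌊Y⌋₊).filter Nat.Prime, (1 : ℝ) / p := rfl
    rw [h2, one_mul]
    rw [abs_le] at h1 ⊢
    constructor <;> linarith [h1.1, h1.2]
  have hA1 := hs.A1
  have hκ0 := hs.κ0
  have hc0 := hs.c0
  have hB0 := hs.B0
  set k : ℝ := (Fintype.card ι : ℝ) with hk
  have hk0 : 0 ≤ k := Nat.cast_nonneg _
  obtain ⟨E₁, hE₁⟩ : ∃ E₁ : ℝ, E₁ = 2 * (A + 5 * 1 + A * s.B) := ⟨_, rfl⟩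
  obtain ⟨E₂, hE₂⟩ : ∃ E₂ : ℝ, E₂ = 2 * (M + 5 * 1 + M * s.B) := ⟨_, rfl⟩
  obtain ⟨E₃, hE₃⟩ : ∃ E₃ : ℝ, E₃ = 2 * (A + 5 * c + A * s.B) := ⟨_, rfl⟩
  obtain ⟨W, hW⟩ : ∃ W : ℝ, W = 4 * (k * Real.log A + ∑ i, (n i : ℝ)) := ⟨_, rfl⟩
  have hE₁0 : 0 ≤ E₁ := by rw [hE₁]; positivity
  have hE₃0 : 0 ≤ E₃ := by rw [hE₃]; positivity
  refine ⟨Real.exp (k * E₁ + E₂ + κ * E₃ + A * 2 + (A * k + κ) * W), Real.exp_pos _, ?_⟩
  intro θ hθ0 hθκ S z Y1 Y2 hSne hY1 hYY hz hfrac
  set D := PP s.B Y2 \ PP s.B Y1 with hD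
  have hDprop : ∀ l ∈ D, l.Prime ∧ ¬ l ∣ s.B ∧ Y1 < (l : ℝ) ^ 4 ∧ (l : ℝ) ^ 4 ≤ Y2 := by
    intro l hl
    rw [hD, mem_sdiff, mem_PP, mem_PP] at hl
    obtain ⟨⟨h1, h2, h3⟩, h4⟩ := hl
    refine ⟨h1, h2, ?_, h3⟩
    by_contra hcon
    push Not at hcon
    exact h4 ⟨h1, h2, hcon⟩
  set Db := D.filter (fun l => l ∣ ∏ i ∈ univ \ S, s.Nm i (z i)) with hDb
  have hDbc : (Db.card : ℝ) ≤ W := by
    rw [hW, hk]
    apply few_bad hs S z hY1 hz Db
    intro l hl
    rw [hDb, mem_filter] at hl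
    exact ⟨(hDprop l hl.1).1, (hDprop l hl.1).2.2.1, hl.2⟩
  have hScard : (S.card : ℝ) ≤ k := by
    rw [hk]
    exact_mod_cast card_le_univ S
  -- the densities
  have hex : ∀ l : ℕ, l.Prime → ex s S θ l ≤ A * k + κ := by
    intro l hl
    unfold ex
    have h1 : ∑ i ∈ S, (s.N1 i l : ℝ) ≤ A * k := by
      have h2 : ∑ i ∈ S, (s.N1 i l : ℝ) ≤ ∑ i ∈ S, A := sum_le_sum fun i _ => hs.nle i l hl
      rw [sum_const, nsmul_eq_mul] at h2
      have h3 : (S.card : ℝ) * A ≤ k * A := mul_le_mul_of_nonneg_right hScard (by linarith)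
      linarith
    split_ifs <;> linarith
  have hterm : ∀ l ∈ D, frac n s.Om S l z ≤
      Real.exp (-(ex s S θ l / l) + A / (l : ℝ) ^ 2 + if l ∈ Db then A * k + κ else 0) := by
    intro l hl
    obtain ⟨h1, h2, h3, -⟩ := hDprop l hl
    have hl1 : (1 : ℝ) ≤ l := by exact_mod_cast h1.one_lt.le
    have hAl : 0 ≤ A / (l : ℝ) ^ 2 := by positivity
    by_cases hb : l ∈ Db
    · rw [if_pos hb]
      refine (frac_le_one _ _ h1 _).trans (Real.one_le_exp ?_)
      have h4 : ex s S θ l / l ≤ A * k + κ := by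
        rw [div_le_iff₀ (by linarith)]
        have h5 := hex l h1
        have h6 : (A * k + κ) * 1 ≤ (A * k + κ) * l := mul_le_mul_of_nonneg_left hl1 (by positivity)
        linarith
      linarith
    · rw [if_neg hb, add_zero]
      have h4 : ∀ i, i ∉ S → rd n l z i ∈ s.U l i := by
        intro i hi
        by_contra hcon
        have h5 := hs.nm l h1 h2 i (z i) hcon
        apply hb
        rw [hDb, mem_filter]
        exact ⟨hl, h5.trans (dvd_prod_of_mem (fun i => s.Nm i (z i)) (mem_sdiff.2 ⟨mem_univ i, hi⟩))⟩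
      refine (hfrac l h1 h2 h4).trans ?_
      have h5 := Real.add_one_le_exp (-(ex s S θ l / l) + A / (l : ℝ) ^ 2)
      linarith
  have hprod : ∏ l ∈ D, frac n s.Om S l z ≤
      Real.exp (∑ l ∈ D, (-(ex s S θ l / l) + A / (l : ℝ) ^ 2 + if l ∈ Db then A * k + κ else 0)) := by
    rw [Real.exp_sum]
    exact prod_le_prod (fun l _ => frac_nonneg _ _ _ _) hterm
  refine hprod.trans ?_
  -- the sums
  have hsq : ∑ l ∈ D, A / (l : ℝ) ^ 2 ≤ A * 2 := by
    have h1 : ∑ l ∈ D, A / (l : ℝ) ^ 2 = A * ∑ l ∈ D, ((l : ℝ) ^ 2)⁻¹ := by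
      rw [mul_sum]
      apply sum_congr rfl
      intro l _
      rw [div_eq_mul_inv]
    rw [h1]
    apply mul_le_mul_of_nonneg_left _ (by linarith)
    have h2 := sum_Ioo_inv_sq_le (α := ℝ) 0 (⌊Y2⌋₊ + 1)
    have h3 : ∑ l ∈ D, ((l : ℝ) ^ 2)⁻¹ ≤ ∑ l ∈ Ioo 0 (⌊Y2⌋₊ + 1), ((l : ℝ) ^ 2)⁻¹ := by
      apply sum_le_sum_of_subset_of_nonneg
      · intro l hl
        obtain ⟨h4, -, -, h5⟩ := hDprop l hl
        have h6 := mem_pr.1 (mem_pr4 h5 h4)
        rw [mem_Ioo]
        omega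
      · intro l _ _
        positivity
    refine h3.trans (h2.trans (le_of_eq ?_))
    norm_num
  have hbad : ∑ l ∈ D, (if l ∈ Db then A * k + κ else 0) ≤ (A * k + κ) * W := by
    rw [← sum_filter, sum_const, nsmul_eq_mul]
    have h1 : (D.filter (fun l => l ∈ Db)).card ≤ Db.card := card_le_card (fun l hl => (mem_filter.1 hl).2)
    have h2 : ((D.filter (fun l => l ∈ Db)).card : ℝ) ≤ W := by
      refine le_trans ?_ hDbc
      exact_mod_cast h1
    calc _ ≤ W * (A * k + κ) := mul_le_mul_of_nonneg_right h2 (by positivity)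
      _ = _ := mul_comm _ _
  set Λ := Real.log (vv Y2) - Real.log (vv Y1) with hΛ
  have hv1 := vv_pos hY1
  have hv2 := vv_pos (hY1.trans hYY)
  have hN : ∀ i, Λ - E₁ ≤ ∑ l ∈ D, (s.N1 i l : ℝ) / l := by
    intro i
    have h1 := grow2 (f := fun l => (s.N1 i l : ℝ)) (c := 1) (A := A) zero_le_one
      (fun l _ => Nat.cast_nonneg _) (fun l hl => hs.nle i l hl)
      (fun Y hY => by rw [one_mul]; exact hs.mer i Y hY) hB0 hY1 hYY
    rw [← hE₁, one_mul] at h1
    have := (abs_le.1 h1).1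
    linarith
  have h1s : ∑ l ∈ D, (1 : ℝ) / l ≤ Λ + E₂ := by
    have h1 := grow2 (f := fun _ => (1 : ℝ)) (c := 1) (A := M) zero_le_one
      (fun l _ => zero_le_one) (fun l _ => hM1) hM hB0 hY1 hYY
    rw [← hE₂, one_mul] at h1
    have := (abs_le.1 h1).2
    linarith
  have hsp : c * Λ - E₃ ≤ ∑ l ∈ D, (if l ∈ s.sp then (1 : ℝ) else 0) / l := by
    have h1 := grow2 (f := fun l => if l ∈ s.sp then (1 : ℝ) else 0) (c := c) (A := A) hc0.le
      (fun l _ => by split_ifs <;> norm_num) (fun l _ => by split_ifs <;> linarith)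
      (fun Y hY => by
        have h2 := hs.mes Y hY
        rw [sum_filter] at h2
        have h3 : ∑ l ∈ pr Y, (if l ∈ s.sp then (1 : ℝ) else 0) / l =
            ∑ l ∈ pr Y, if l ∈ s.sp then (1 : ℝ) / l else 0 := by
          apply sum_congr rfl
          intro l _
          split_ifs
          · rfl
          · exact zero_div _
        rw [h3]
        exact h2) hB0 hY1 hYY
    rw [← hE₃] at h1
    have := (abs_le.1 h1).1
    linarith
  have hexs : ∑ l ∈ D, ex s S θ l / l = ∑ i ∈ S, ∑ l ∈ D, (s.N1 i l : ℝ) / l - ∑ l ∈ D, (1 : ℝ) / l +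
      θ * ∑ l ∈ D, (if l ∈ s.sp then (1 : ℝ) else 0) / l := by
    rw [sum_comm, mul_sum, ← sum_sub_distrib, ← sum_add_distrib]
    apply sum_congr rfl
    intro l _
    unfold ex
    rw [← sum_div]
    split_ifs <;> ring
  have hS1 : (S.card : ℝ) * (Λ - E₁) ≤ ∑ i ∈ S, ∑ l ∈ D, (s.N1 i l : ℝ) / l := by
    rw [← nsmul_eq_mul]
    exact card_nsmul_le_sum _ _ _ fun i _ => hN i
  have hS2 : θ * (c * Λ - E₃) ≤ θ * ∑ l ∈ D, (if l ∈ s.sp then (1 : ℝ) else 0) / l :=
    mul_le_mul_of_nonneg_left hsp hθ0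
  have hS3 : (S.card : ℝ) * E₁ ≤ k * E₁ := mul_le_mul_of_nonneg_right hScard hE₁0
  have hS4 : θ * E₃ ≤ κ * E₃ := mul_le_mul_of_nonneg_right hθκ hE₃0
  have hcard1 : ((S.card - 1 : ℕ) : ℝ) = S.card - 1 := by
    rw [Nat.cast_sub (card_pos.2 hSne), Nat.cast_one]
  have hq : vv Y1 / vv Y2 = Real.exp (-Λ) := by
    rw [hΛ, neg_sub, Real.exp_sub, Real.exp_log (by linarith), Real.exp_log (by linarith)]
  rw [hq, ← Real.exp_nat_mul, hcard1, ← Real.exp_mul, ← Real.exp_add, ← Real.exp_add]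
  apply Real.exp_le_exp.2
  rw [sum_add_distrib, sum_add_distrib, sum_neg_distrib]
  nlinarith

end

theorem rb : S_RB := by
  intro ι _ _ n s A c κ hs
  obtain ⟨C, hC, h⟩ := rb_aux s A c κ hs
  refine ⟨C, hC, fun S z Y1 Y2 hS hY1 hYY hz => ⟨?_, fun hSu hbad => ?_⟩⟩
  · have h1 := h 0 le_rfl hs.κ0.le S z Y1 Y2 hS hY1 hYY hz (fun l hl hlB hu => by
      have h2 := hs.dens l hl hlB S hS z hu
      have h3 : ex s S 0 l = (∑ i ∈ S, (s.N1 i l : ℝ)) - 1 := by
        unfold ex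
        rw [ite_self, add_zero]
      rw [h3]
      exact h2)
    rw [mul_zero, Real.rpow_zero, mul_one] at h1
    exact h1
  · refine h κ hs.κ0.le le_rfl S z Y1 Y2 hS hY1 hYY hz (fun l hl hlB hu => ?_)
    unfold ex
    split_ifs with hsp
    · exact hs.good l hl hlB hsp S hS hSu hbad z hu
    · rw [add_zero]
      exact hs.dens l hl hlB S hS z hu

end Pool.Agent.Q14.ESM
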