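import Pool.Agent.Q161.ESM.Stm3
import Pool.Agent.Q239.EL.UN

/-! # Project ESM, job SUF: numbers with even valuations, modulo squares (helper14) -/

set_option autoImplicit false

namespace Pool.Agent.Q14.ESM

open Polynomial NumberField IsDedekindDomain Finset
open Pool.Agent.Q51.EL Pool.Agent.Q239.EL
open Pool.Agent.Q161.EA Pool.Agent.Q161.ESM

section

variable {L : Type} [Field L] [NumberField L]

theorem par_or (v : HeightOneSpectrum (𝓞 L)) {x : L} (hx : x ≠ 0) (h : ¬ Par v x 0) :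
    Par v x 1 := by
  have h1 : v.valuation L x ≠ 0 := (Valuation.ne_zero_iff _).mpr hx
  obtain ⟨m, hm⟩ : ∃ m : ℤ, v.valuation L x = WithZero.exp m :=
    ⟨WithZero.log (v.valuation L x), (WithZero.exp_log h1).symm⟩
  rcases Int.even_or_odd m with ⟨k, hk⟩ | ⟨k, hk⟩
  · exact absurd ⟨k, by rw [hm, hk]; congr 1; ring⟩ h
  · exact ⟨k, by rw [hm, hk]; congr 1; ring⟩

end

theorem suf : S_SUF := by
  classical
  intro L _ _ B hB
  obtain ⟨B1, C, hB1, hC, hcl⟩ := cl L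
  have hW : {v : HeightOneSpectrum (𝓞 L) | (B : 𝓞 L) ∈ v.asIdeal}.Finite := by
    have h1 := Ideal.finite_factors (R := 𝓞 L) (I := Ideal.span {(B : 𝓞 L)})
      (span_ne (by exact_mod_cast hB))
    refine h1.subset ?_
    intro v hv
    rw [Set.mem_ofPred_eq, Ideal.dvd_iff_le, Ideal.span_singleton_le_iff_mem]
    exact hv
  obtain ⟨W, hWd⟩ : ∃ W, W = hW.toFinset := ⟨_, rfl⟩
  obtain ⟨M, hM⟩ : ∃ M : ℝ, M = C * ∏ v ∈ W, ((Ideal.absNorm v.asIdeal : ℕ) : ℝ) := ⟨_, rfl⟩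
  have hfin : {I : Ideal (𝓞 L) | Ideal.absNorm I ≤ ⌊M⌋₊}.Finite :=
    Ideal.finite_setOfPred_absNorm_le ⌊M⌋₊
  obtain ⟨T, hT⟩ : ∃ T, T = hfin.toFinset := ⟨_, rfl⟩
  have hgen : ∀ I : Ideal (𝓞 L), ∃ γ : 𝓞 L, γ ≠ 0 ∧ ∀ α : 𝓞 L, α ≠ 0 → Ideal.span {α} = I →
      Ideal.span {γ} = I := by
    intro I
    by_cases h : ∃ α : 𝓞 L, α ≠ 0 ∧ Ideal.span {α} = I
    · obtain ⟨α, hα, hI⟩ := h
      exact ⟨α, hα, fun _ _ _ => hI⟩
    · refine ⟨1, one_ne_zero, fun α hα hI => ?_⟩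
      exact absurd ⟨α, hα, hI⟩ h
  choose γ hγ0 hγ using hgen
  have hfq : Finite ((𝓞 L)ˣ ⧸ (powMonoidHom 2 : (𝓞 L)ˣ →* (𝓞 L)ˣ).range) := sq_finite
  let _ := Fintype.ofFinite ((𝓞 L)ˣ ⧸ (powMonoidHom 2 : (𝓞 L)ˣ →* (𝓞 L)ˣ).range)
  refine ⟨(T ×ˢ (Finset.univ : Finset ((𝓞 L)ˣ ⧸ (powMonoidHom 2 : (𝓞 L)ˣ →* (𝓞 L)ˣ).range))).image
    (fun p => ((γ p.1 * ((p.2.out : (𝓞 L)ˣ) : 𝓞 L) : 𝓞 L) : L)), ?_, ?_⟩
  · intro a ha
    obtain ⟨p, -, rfl⟩ := Finset.mem_image.1 ha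
    exact coe_ne (mul_ne_zero (hγ0 _) (p.2.out).isUnit.ne_zero)
  intro x hx hpar
  obtain ⟨S, hS⟩ : ∃ S, S = W.filter (fun v => ¬ Par v x 0) := ⟨_, rfl⟩
  obtain ⟨η, α, hη, hα, hval, hnorm⟩ := hcl x S hx (by
    intro v _
    constructor
    · intro hv
      rw [hS, Finset.mem_filter] at hv
      exact par_or v hx hv.2
    · intro hv
      by_contra hn
      apply hv
      rw [hS, Finset.mem_filter]
      refine ⟨?_, hn⟩
      rw [hWd, Set.Finite.mem_toFinset]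
      by_contra h2
      exact hn (hpar v h2))
  have hα0 : α ≠ 0 := by
    rintro rfl
    have h1 : (0 : L) = x * η ^ 2 := by rw [← hα]; simp
    exact mul_ne_zero hx (pow_ne_zero 2 hη) h1.symm
  have hle : ((Ideal.absNorm (Ideal.span {α}) : ℕ) : ℝ) ≤ M := by
    refine hnorm.trans ?_
    rw [hM]
    refine mul_le_mul_of_nonneg_left ?_ hC.le
    have h1 : ∏ v ∈ S, Ideal.absNorm v.asIdeal ≤ ∏ v ∈ W, Ideal.absNorm v.asIdeal :=
      Finset.prod_le_prod_of_subset_of_one_le' (by rw [hS]; exact Finset.filter_subset _ _)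
        fun v _ _ => one_le_norm' v
    exact_mod_cast h1
  have hmem : Ideal.span {α} ∈ T := by
    rw [hT, Set.Finite.mem_toFinset]
    exact Nat.le_floor hle
  have hsp := hγ (Ideal.span {α}) α hα0 rfl
  obtain ⟨u, hu⟩ := Ideal.span_singleton_eq_span_singleton.1 hsp
  obtain ⟨q, hq⟩ : ∃ q : (𝓞 L)ˣ ⧸ (powMonoidHom 2 : (𝓞 L)ˣ →* (𝓞 L)ˣ).range,
    q = QuotientGroup.mk u := ⟨_, rfl⟩
  have h1 : (q.out)⁻¹ * u ∈ (powMonoidHom 2 : (𝓞 L)ˣ →* (𝓞 L)ˣ).range := by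
    rw [← QuotientGroup.eq, ← hq]
    exact q.out_eq'
  obtain ⟨t, ht⟩ := h1
  have ht' : t ^ 2 = (q.out)⁻¹ * u := ht
  have hut : u = q.out * t ^ 2 := by rw [ht', mul_inv_cancel_left]
  refine ⟨_, Finset.mem_image.2 ⟨(Ideal.span {α}, q), Finset.mem_product.2
    ⟨hmem, Finset.mem_univ _⟩, rfl⟩, ((t : 𝓞 L) : L) / η, ?_, ?_⟩
  · exact div_ne_zero (coe_ne t.isUnit.ne_zero) hη
  · have e1 : (α : 𝓞 L) = γ (Ideal.span {α}) * ((q.out : (𝓞 L)ˣ) : 𝓞 L) * (t : 𝓞 L) ^ 2 := by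
      conv_lhs => rw [← hu, hut, Units.val_mul, Units.val_pow_eq_pow_val]
      ring
    have e2 : (α : L) = ((γ (Ideal.span {α}) * ((q.out : (𝓞 L)ˣ) : 𝓞 L) : 𝓞 L) : L) *
        ((t : 𝓞 L) : L) ^ 2 := by
      have h2 := congrArg (algebraMap (𝓞 L) L) e1
      rw [map_mul _ _ ((t : 𝓞 L) ^ 2), map_pow] at h2
      exact h2
    rw [div_pow, ← mul_div_assoc, eq_div_iff (pow_ne_zero 2 hη), ← hα]
    exact e2

end Pool.Agent.Q14.ESM
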